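import Pool.Agent.Helper9.UNI.Sheet

/-! Row REGu: regulators, uniform in number fields of bounded degree (edit of
`Pool.Agent.Helper54.LM3.FINAL3`). -/

set_option autoImplicit false

open Filter Topology NumberField

namespace Pool.Agent.Helper91.UNI

open Pool.Agent.Helper42.LS Pool.Agent.Helper42.LK Pool.Agent.Helper54.LS Pool.Agent.Helper54.LM
  Pool.Agent.Helper92.LV Pool.Agent.Helper9.LS5 Pool.Agent.Helper54.LM3 Pool.Agent.Helper9.UNI

theorem ru_LD_nonneg (hDF : ST_KDF) {K : Type} [Field K] [NumberField K] (A B : K)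
    (hD : 4 * A ^ 3 + 27 * B ^ 2 ≠ 0) : 0 ≤ LD A B := by
  unfold LD
  exact finsum_nonneg fun v => ((hDF K A B hD).2.1 v).1

theorem ru_HK_nonneg (hDF : ST_KDF) {K : Type} [Field K] [NumberField K] (A B : K)
    (hD : 4 * A ^ 3 + 27 * B ^ 2 ≠ 0) : 0 ≤ HK A B := by
  unfold HK
  exact add_nonneg (ru_LD_nonneg hDF A B hD) (Height.zero_le_logHeight₁ _)

theorem ru_key (hGL : ST_LGL) (hCH : ST_LCH) (hREG : ST_LREGu) (hREG3 : ST_LREG3u)
    (hDF : ST_KDF) (D m : ℕ) (hm : 1 ≤ m) : ∃ c : ℝ, 0 < c ∧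
    ∀ (K : Type) [Field K] [NumberField K] [DecidableEq K], Module.finrank ℚ K ≤ D →
      ∀ A B : K, 4 * A ^ 3 + 27 * B ^ 2 ≠ 0 →
      ∀ P : Fin m → (ECK A B).toAffine.Point, Indep P →
      ∀ G : Matrix (Fin m) (Fin m) ℝ, IsGram P G →
        c * (1 + HK A B) ^ (max (gam m) (g3 m)) ≤ G.det ∧ G.PosSemidef := by
  obtain ⟨c₁, hc₁, hcR₁⟩ := hREG D m hm
  obtain ⟨c₂, hc₂, hcR₂⟩ := hREG3 D m hm
  refine ⟨min c₁ c₂, lt_min hc₁ hc₂, ?_⟩
  intro K _ _ _ hK A B hD P hP G hG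
  obtain ⟨X, Y, hL, -, hcan⟩ := FINAL_gram hGL hCH hD P hP
  have hH1 : 0 ≤ 1 + HK A B := by linarith [ru_HK_nonneg hDF A B hD]
  refine ⟨?_, LREG_psd hG.1 fun k => ?_⟩
  · have h1 := hcR₁ K hK A B hD X Y G hL hG.1 (hcan G hG)
    have h2 := hcR₂ K hK A B hD X Y G hL hG.1 (hcan G hG)
    rcases max_choice (gam m) (g3 m) with h | h
    · rw [h]
      exact (mul_le_mul_of_nonneg_right (min_le_left _ _) (Real.rpow_nonneg hH1 _)).trans h1
    · rw [h]
      exact (mul_le_mul_of_nonneg_right (min_le_right _ _) (Real.rpow_nonneg hH1 _)).trans h2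
  · refine ge_of_tendsto' (hG.2 k) fun n => div_nonneg ?_ (by positivity)
    rcases (2 ^ n • ∑ i, k i • P i : (ECK A B).toAffine.Point) with _ | ⟨x, y, h⟩
    · exact le_rfl
    · exact Height.zero_le_logHeight₁ _

/-- **Row REGu.** -/
theorem REGu (hGL : ST_LGL) (hCH : ST_LCH) (hREG : ST_LREGu) (hREG3 : ST_LREG3u)
    (hDF : ST_KDF) (hCNT : ST_CNT) : ST_REGu := by
  intro D m hm
  obtain ⟨c, hc, key⟩ := ru_key hGL hCH hREG hREG3 hDF D m hm
  have hm0 : (0 : ℝ) < m := by exact_mod_cast hm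
  obtain ⟨g, hgd⟩ : ∃ g : ℝ, g = max (gam m) (g3 m) := ⟨_, rfl⟩
  rw [← hgd] at key ⊢
  refine ⟨⟨min c (m * c ^ (1 / (m : ℝ))), lt_min hc (by positivity), ?_⟩, ?_⟩
  · intro K _ _ _ hK A B hD P hP
    obtain ⟨-, -, -, ⟨G, hG⟩, -⟩ := FINAL_gram hGL hCH hD P hP
    obtain ⟨h1, h2⟩ := key K hK A B hD P hP G hG
    have hH := ru_HK_nonneg hDF A B hD
    have hH1 : 0 < 1 + HK A B := by linarith
    refine ⟨G, hG, ?_, ?_⟩
    · refine le_trans (mul_le_mul_of_nonneg_right (min_le_left _ _)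
        (Real.rpow_nonneg hH1.le _)) ?_
      exact h1
    · intro S hS
      refine le_trans (mul_le_mul_of_nonneg_right (min_le_right _ _)
        (Real.rpow_nonneg hH1.le _)) ?_
      have h3 := FINAL_trace hm hS.posSemidef h2
      have h4 : (S.map (fun z : ℤ => (z : ℝ)) * G).trace = ∑ i, ∑ j, (S i j : ℝ) * G i j := by
        rw [Matrix.trace]
        refine Finset.sum_congr rfl fun i _ => ?_
        rw [Matrix.diag_apply, Matrix.mul_apply]
        refine Finset.sum_congr rfl fun j _ => ?_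
        rw [Matrix.map_apply]
        have h5 := congrFun (congrFun hG.1 i) j
        rw [Matrix.transpose_apply] at h5
        rw [h5]
      rw [h4] at h3
      refine le_trans ?_ h3
      have h5 := FINAL_int hS
      have h6 : (c * (1 + HK A B) ^ g) ^ (1 / (m : ℝ)) ≤
          ((S.map (fun z : ℤ => (z : ℝ))).det * G.det) ^ (1 / (m : ℝ)) := by
        refine Real.rpow_le_rpow (by positivity) ?_ (by positivity)
        have h7 : 0 ≤ G.det := h2.det_nonneg
        nlinarith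
      have h8 : (c * (1 + HK A B) ^ g) ^ (1 / (m : ℝ)) = c ^ (1 / (m : ℝ)) *
          (1 + HK A B) ^ (g / m) := by
        rw [Real.mul_rpow hc.le (Real.rpow_nonneg hH1.le _), ← Real.rpow_mul hH1.le]
        congr 2
        ring
      calc (m : ℝ) * c ^ (1 / (m : ℝ)) * (1 + HK A B) ^ (g / m)
          = m * (c * (1 + HK A B) ^ g) ^ (1 / (m : ℝ)) := by rw [h8]; ring
        _ ≤ _ := mul_le_mul_of_nonneg_left h6 hm0.le
  · intro hm3 R
    have hg : 0 < g := by
      rw [hgd]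
      refine lt_of_lt_of_le ?_ (le_max_left _ _)
      unfold gam
      have h3 : (3 : ℝ) ≤ m := by exact_mod_cast hm3
      refine _root_.div_pos ?_ (by positivity)
      nlinarith
    obtain ⟨F, hF1, hF2⟩ := hCNT D ((max 0 (R / c)) ^ (1 / g))
    refine ⟨F, fun p hp => (hF1 p hp).1, ?_⟩
    intro K _ _ _ hK A B hD P hP G hG hR
    obtain ⟨h1, h2⟩ := key K hK A B hD P hP G hG
    have hH := ru_HK_nonneg hDF A B hD
    apply hF2 K hK
    have h3 : (1 + HK A B) ^ g ≤ max 0 (R / c) := by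
      refine le_trans ?_ (le_max_right _ _)
      rw [le_div_iff₀ hc]
      linarith
    have h4 : ((1 + HK A B) ^ g) ^ (1 / g) ≤ (max 0 (R / c)) ^ (1 / g) :=
      Real.rpow_le_rpow (Real.rpow_nonneg (by linarith) _) h3 (by positivity)
    rw [← Real.rpow_mul (by linarith), mul_one_div_cancel hg.ne', Real.rpow_one] at h4
    have h5 : Height.logHeight₁ (6912 * A ^ 3 / (4 * A ^ 3 + 27 * B ^ 2)) ≤ HK A B := by
      have h6 := ru_LD_nonneg hDF A B hD
      unfold HK
      linarith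
    linarith

end Pool.Agent.Helper91.UNI
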